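import Mathlib

namespace Pool.Agent.Results.MP_0c5cb5_pr.LocalLimitFails

open Filter Topology MeasureTheory
open scoped BigOperators ENNReal

/-- The normalising constant `c = 1 / (4 ζ(3))`. -/
noncomputable def c : ℝ := 1 / (4 * ∑' k : ℕ, 1 / ((k : ℝ) + 1) ^ 3)

/-- The step law: `mu (± k e_i) = c k⁻³` for `k ≥ 1`, and `0` elsewhere. -/
noncomputable def mu (z : ℤ × ℤ) : ℝ :=
  (if z.2 = 0 ∧ z.1 ≠ 0 then c / |(z.1 : ℝ)| ^ 3 else 0) +
  (if z.1 = 0 ∧ z.2 ≠ 0 then c / |(z.2 : ℝ)| ^ 3 else 0)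

/-- Transition probabilities of the perturbed walk: from the origin the step is uniform on
the four neighbours, from any other site the step has law `mu`. -/
noncomputable def kern (x y : ℤ × ℤ) : ℝ :=
  if x = 0 then
    (if y = (1, 0) ∨ y = (-1, 0) ∨ y = (0, 1) ∨ y = (0, -1) then 1 / 4 else 0)
  else mu (y - x)

/-- `S` is the perturbed walk on the probability space `(Ω, P)`: it starts at the origin and,
for every event `A` determined by `S 0, ..., S n`, and all sites `x, y`,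
`P (A, S n = x, S (n+1) = y) = P (A, S n = x) * kern x y`. -/
structure IsPerturbedWalk {Ω : Type*} [MeasurableSpace Ω] (P : Measure Ω)
    (S : ℕ → Ω → ℤ × ℤ) : Prop where
  meas : ∀ n, Measurable (S n)
  start : ∀ᵐ ω ∂P, S 0 ω = 0
  markov : ∀ (n : ℕ) (A : Set (Fin (n + 1) → ℤ × ℤ)) (x y : ℤ × ℤ),
    P.real {ω | (fun k : Fin (n + 1) => S k ω) ∈ A ∧ S n ω = x ∧ S (n + 1) ω = y} =
      P.real {ω | (fun k : Fin (n + 1) => S k ω) ∈ A ∧ S n ω = x} * kern x y

/-- The density at `y` of `C W(1)`, `W` the standard planar Brownian motion. -/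
noncomputable def gaussDens (C : ℝ) (y : ℝ × ℝ) : ℝ :=
  (2 * Real.pi * C ^ 2)⁻¹ * Real.exp (-(y.1 ^ 2 + y.2 ^ 2) / (2 * C ^ 2))

/-- The error at the site `x` and time `n`:
`| n log n P(S_n = x) - g (x / √(n log n)) |`. -/
noncomputable def err {Ω : Type*} [MeasurableSpace Ω] (P : Measure Ω)
    (S : ℕ → Ω → ℤ × ℤ) (C : ℝ) (n : ℕ) (x : ℤ × ℤ) : ℝ :=
  |(n : ℝ) * Real.log n * P.real {ω | S n ω = x} -
    gaussDens C ((x.1 : ℝ) / Real.sqrt (n * Real.log n), (x.2 : ℝ) / Real.sqrt (n * Real.log n))|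

lemma summable_cube : Summable (fun k : ℕ => 1 / ((k : ℝ) + 1) ^ 3) := by
  have h : Summable (fun k : ℕ => 1 / (k : ℝ) ^ 3) := Real.summable_one_div_nat_pow.mpr (by norm_num)
  have := (summable_nat_add_iff (f := fun k : ℕ => 1 / (k : ℝ) ^ 3) 1).mpr h
  simpa using this

lemma zeta_gt_one : 1 < ∑' k : ℕ, 1 / ((k : ℝ) + 1) ^ 3 := by
  have h := summable_cube.sum_le_tsum (Finset.range 2) (fun k _ => by positivity)
  have : ∑ k ∈ Finset.range 2, 1 / ((k : ℝ) + 1) ^ 3 = 1 + 1 / 8 := by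
    norm_num [Finset.sum_range_succ]
  linarith

lemma c_pos : 0 < c := by
  unfold c
  have := zeta_gt_one
  positivity

lemma c_lt : c < 1 / 4 := by
  unfold c
  have := zeta_gt_one
  rw [div_lt_div_iff₀ (by linarith) (by norm_num)]
  linarith

lemma hasSum_nat : HasSum (fun k : ℕ => c / ((k : ℝ) + 1) ^ 3) (1 / 4) := by
  have h := summable_cube.hasSum.mul_left c
  have hz := zeta_gt_one
  have e : c * ∑' k : ℕ, 1 / ((k : ℝ) + 1) ^ 3 = 1 / 4 := by
    unfold c
    field_simp
  rw [e] at h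
  have e2 : (fun k : ℕ => c / ((k : ℝ) + 1) ^ 3) =
      fun k : ℕ => c * (1 / ((k : ℝ) + 1) ^ 3) := by
    funext k
    ring
  rw [e2]
  exact h

/-- the one-dimensional profile -/
noncomputable def phi (a : ℤ) : ℝ := if a ≠ 0 then c / |(a : ℝ)| ^ 3 else 0

lemma hasSum_phi : HasSum phi (1 / 2) := by
  have h1 : HasSum (fun n : ℕ => phi (n : ℤ)) (1 / 4) := by
    have : HasSum (fun n : ℕ => phi ((n + 1 : ℕ) : ℤ)) (1 / 4) := by
      convert hasSum_nat using 2 with k
      unfold phi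
      rw [if_pos (by positivity)]
      congr 2
      rw [abs_of_nonneg (by positivity)]
      push_cast
      ring
    have h2 := (hasSum_nat_add_iff (f := fun n : ℕ => phi (n : ℤ)) 1).mp this
    simpa [phi] using h2
  have h2 : HasSum (fun n : ℕ => phi (-((n : ℤ) + 1))) (1 / 4) := by
    convert hasSum_nat using 2 with k
    unfold phi
    rw [if_pos (by omega)]
    congr 2
    push_cast
    rw [abs_neg, abs_of_nonneg (by positivity)]
  have := HasSum.of_nat_of_neg_add_one h1 h2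
  convert this using 1
  norm_num

lemma hasSum_mu : HasSum mu 1 := by
  have h1 : HasSum (fun z : ℤ × ℤ => if z.2 = 0 ∧ z.1 ≠ 0 then c / |(z.1 : ℝ)| ^ 3 else 0)
      (1 / 2) := by
    have hinj : Function.Injective (fun a : ℤ => ((a, 0) : ℤ × ℤ)) := by
      intro a b h
      simpa using h
    rw [← Function.Injective.hasSum_iff hinj]
    · refine (iff_of_eq (congrArg (fun f => HasSum f (1 / 2 : ℝ)) ?_)).mpr hasSum_phi
      funext a
      simp [phi]
    · intro z hz
      rw [if_neg]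
      rintro ⟨h, -⟩
      exact hz ⟨z.1, by ext <;> simp [h]⟩
  have h2 : HasSum (fun z : ℤ × ℤ => if z.1 = 0 ∧ z.2 ≠ 0 then c / |(z.2 : ℝ)| ^ 3 else 0)
      (1 / 2) := by
    have hinj : Function.Injective (fun a : ℤ => ((0, a) : ℤ × ℤ)) := by
      intro a b h
      simpa using h
    rw [← Function.Injective.hasSum_iff hinj]
    · refine (iff_of_eq (congrArg (fun f => HasSum f (1 / 2 : ℝ)) ?_)).mpr hasSum_phi
      funext a
      simp [phi]
    · intro z hz
      rw [if_neg]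
      rintro ⟨h, -⟩
      exact hz ⟨z.2, by ext <;> simp [h]⟩
  have h3 := h1.add h2
  rw [add_halves] at h3
  exact h3

/-- The column sum of the kernel at `e₁` is `1 - c + 1/4`. -/
lemma hasSum_col : HasSum (fun y => kern y (1, 0)) (1 - c + 1 / 4) := by
  have h1 : HasSum (fun y : ℤ × ℤ => mu ((1, 0) - y)) 1 := by
    have := (Equiv.subLeft ((1, 0) : ℤ × ℤ)).hasSum_iff (f := mu) (a := 1)
    exact this.mpr hasSum_mu
  have h2 := h1.update 0 (1 / 4)
  have e : mu ((1, 0) - 0) = c := by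
    simp [mu]
  rw [e] at h2
  have e2 : (1 / 4 - c + 1 : ℝ) = 1 - c + 1 / 4 := by ring
  rw [e2] at h2
  refine (iff_of_eq (congrArg (fun f => HasSum f (1 - c + 1 / 4 : ℝ)) ?_)).mpr h2
  funext y
  by_cases hy : y = 0
  · subst hy
    simp [kern]
  · rw [Function.update_of_ne hy]
    simp [kern, hy]

lemma phi_nonneg (z : ℤ × ℤ) : 0 ≤ mu z := by
  unfold mu
  have := c_pos
  split_ifs <;> positivity

lemma kern_nonneg (x y : ℤ × ℤ) : 0 ≤ kern x y := by
  unfold kern
  split_ifs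
  · norm_num
  · norm_num
  · exact phi_nonneg _

variable {Ω : Type*} [MeasurableSpace Ω] {P : Measure Ω} [IsProbabilityMeasure P]
  {S : ℕ → Ω → ℤ × ℤ}

lemma step_ge (hS : IsPerturbedWalk P S) (n : ℕ) (x : ℤ × ℤ) (F : Finset (ℤ × ℤ)) :
    ∑ y ∈ F, P.real {ω | S n ω = y} * kern y x ≤ P.real {ω | S (n + 1) ω = x} := by
  have h1 : ∀ y, P.real {ω | S n ω = y} * kern y x =
      P.real {ω | S n ω = y ∧ S (n + 1) ω = x} := by
    intro y
    have := hS.markov n Set.univ y x
    simpa using this.symm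
  have hm : ∀ y, MeasurableSet {ω | S n ω = y ∧ S (n + 1) ω = x} := by
    intro y
    exact ((hS.meas n) (measurableSet_singleton y)).inter
      ((hS.meas (n + 1)) (measurableSet_singleton x))
  rw [Finset.sum_congr rfl (fun y _ => h1 y)]
  rw [← measureReal_biUnion_finset]
  · refine measureReal_mono ?_ (measure_ne_top _ _)
    intro ω hω
    simp only [Set.mem_iUnion] at hω
    obtain ⟨y, _, _, h⟩ := hω
    exact h
  · intro a _ b _ hab
    apply Set.disjoint_left.mpr
    rintro ω ⟨h1, _⟩ ⟨h2, _⟩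
    exact hab (h1.symm.trans h2)
  · intro y _
    exact hm y

/-- No common positive limit of `n log n P(S_n = x)` at all sites `x`. -/
lemma no_common_limit (hS : IsPerturbedWalk P S) (γ : ℝ) (hγ : 0 < γ)
    (h : ∀ x : ℤ × ℤ, Tendsto (fun n : ℕ => (n : ℝ) * Real.log n * P.real {ω | S n ω = x})
      atTop (𝓝 γ)) : False := by
  have hF : ∀ F : Finset (ℤ × ℤ), ∑ y ∈ F, kern y (1, 0) ≤ 1 := by
    intro F
    have h1 : Tendsto (fun n : ℕ => ∑ y ∈ F,
        ((n : ℝ) * Real.log n * P.real {ω | S n ω = y}) * kern y (1, 0)) atTop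
        (𝓝 (∑ y ∈ F, γ * kern y (1, 0))) :=
      tendsto_finsetSum _ (fun y _ => (h y).mul_const _)
    have h2 : Tendsto (fun n : ℕ => ((n + 1 : ℕ) : ℝ) * Real.log ((n + 1 : ℕ) : ℝ) *
        P.real {ω | S (n + 1) ω = ((1, 0) : ℤ × ℤ)}) atTop (𝓝 γ) :=
      (h (1, 0)).comp (tendsto_add_atTop_nat 1)
    have h3 := le_of_tendsto_of_tendsto h1 h2 (by
      filter_upwards [eventually_ge_atTop 1] with n hn
      have hn' : (1 : ℝ) ≤ n := by exact_mod_cast hn
      have hlog : 0 ≤ Real.log n := Real.log_nonneg hn'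
      calc ∑ y ∈ F, ((n : ℝ) * Real.log n * P.real {ω | S n ω = y}) * kern y (1, 0)
          = ((n : ℝ) * Real.log n) * ∑ y ∈ F, P.real {ω | S n ω = y} * kern y (1, 0) := by
            rw [Finset.mul_sum]
            apply Finset.sum_congr rfl
            intro y _
            ring
        _ ≤ ((n : ℝ) * Real.log n) * P.real {ω | S (n + 1) ω = ((1, 0) : ℤ × ℤ)} := by
            apply mul_le_mul_of_nonneg_left (step_ge hS n _ F)
            positivity
        _ ≤ (((n + 1 : ℕ) : ℝ) * Real.log ((n + 1 : ℕ) : ℝ)) *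
            P.real {ω | S (n + 1) ω = ((1, 0) : ℤ × ℤ)} := by
            apply mul_le_mul_of_nonneg_right _ measureReal_nonneg
            push_cast
            apply mul_le_mul (by linarith) _ hlog (by positivity)
            exact Real.log_le_log (by linarith) (by linarith))
    rw [← Finset.mul_sum] at h3
    by_contra hcon
    push Not at hcon
    nlinarith
  have h4 : (1 - c + 1 / 4 : ℝ) ≤ 1 := by
    apply hasSum_le_of_sum_le hasSum_col hF
  have := c_lt
  linarith

lemma gauss_tendsto (C : ℝ) (x : ℤ × ℤ) :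
    Tendsto (fun n : ℕ => gaussDens C ((x.1 : ℝ) / Real.sqrt (n * Real.log n),
      (x.2 : ℝ) / Real.sqrt (n * Real.log n))) atTop (𝓝 ((2 * Real.pi * C ^ 2)⁻¹)) := by
  have hs : Tendsto (fun n : ℕ => Real.sqrt ((n : ℝ) * Real.log n)) atTop atTop := by
    apply Real.tendsto_sqrt_atTop.comp
    apply Tendsto.atTop_mul_atTop₀ tendsto_natCast_atTop_atTop
    exact Real.tendsto_log_atTop.comp tendsto_natCast_atTop_atTop
  have h1 : Tendsto (fun n : ℕ => (x.1 : ℝ) / Real.sqrt (n * Real.log n)) atTop (𝓝 0) :=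
    hs.const_div_atTop _
  have h2 : Tendsto (fun n : ℕ => (x.2 : ℝ) / Real.sqrt (n * Real.log n)) atTop (𝓝 0) :=
    hs.const_div_atTop _
  have hc : Continuous (gaussDens C) := by
    unfold gaussDens
    fun_prop
  have h3 := (hc.tendsto (0, 0)).comp (h1.prodMk_nhds h2)
  have e : gaussDens C (0, 0) = (2 * Real.pi * C ^ 2)⁻¹ := by
    simp [gaussDens]
  rw [e] at h3
  exact h3

lemma gauss_nonneg (C : ℝ) (y : ℝ × ℝ) : 0 ≤ gaussDens C y := by
  unfold gaussDens
  positivity

lemma gauss_le (C : ℝ) (y : ℝ × ℝ) : gaussDens C y ≤ (2 * Real.pi * C ^ 2)⁻¹ := by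
  unfold gaussDens
  apply mul_le_of_le_one_right (by positivity)
  apply Real.exp_le_one_iff.mpr
  apply div_nonpos_of_nonpos_of_nonneg
  · nlinarith [sq_nonneg y.1, sq_nonneg y.2]
  · positivity

lemma err_le_iSup (C : ℝ) (n : ℕ) (x : ℤ × ℤ) : err P S C n x ≤ ⨆ z, err P S C n z := by
  apply le_ciSup (f := fun z => err P S C n z)
  refine ⟨|(n : ℝ) * Real.log n| + (2 * Real.pi * C ^ 2)⁻¹, ?_⟩
  rintro _ ⟨z, rfl⟩
  unfold err
  refine (abs_sub _ _).trans ?_
  apply add_le_add
  · rw [abs_mul]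
    apply mul_le_of_le_one_right (abs_nonneg _)
    rw [abs_of_nonneg measureReal_nonneg]
    exact measureReal_le_one
  · rw [abs_of_nonneg (gauss_nonneg _ _)]
    exact gauss_le _ _

/-- The local limit law fails for the perturbed walk, whatever the constant `C > 0`. -/
theorem result {Ω : Type*} [MeasurableSpace Ω] (P : Measure Ω) [IsProbabilityMeasure P]
    (S : ℕ → Ω → ℤ × ℤ) (hS : IsPerturbedWalk P S) (C : ℝ) (hC : 0 < C) :
    ¬ Tendsto (fun n : ℕ => ⨆ x : ℤ × ℤ, err P S C n x) atTop (𝓝 0) := by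
  intro h
  apply no_common_limit hS ((2 * Real.pi * C ^ 2)⁻¹) (by positivity)
  intro x
  have h1 : Tendsto (fun n : ℕ => err P S C n x) atTop (𝓝 0) := by
    apply squeeze_zero (fun n => abs_nonneg _) (fun n => err_le_iSup C n x) h
  have h2 : Tendsto (fun n : ℕ => (n : ℝ) * Real.log n * P.real {ω | S n ω = x} -
    gaussDens C ((x.1 : ℝ) / Real.sqrt (n * Real.log n),
      (x.2 : ℝ) / Real.sqrt (n * Real.log n))) atTop (𝓝 0) :=
    (tendsto_zero_iff_abs_tendsto_zero _).mpr h1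
  have h3 := h2.add (gauss_tendsto C x)
  simpa using h3

end Pool.Agent.Results.MP_0c5cb5_pr.LocalLimitFails
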